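import Pool.Agent.H76.MB.A1

set_option autoImplicit false

/-! # The fixed point equation of the self-similar composition -/

namespace Pool.Agent.W5h49.MB

open Complex Metric Set Filter Topology MeasureTheory
open Pool.Agent.W677.Mar

/-- a block: a normalised map `w exp (- k w)` of the disc of radius `R₁`, and `U = log` of its
logarithmic derivative -/
structure Blk (R₁ B D : ℝ) (k U : ℂ → ℂ) : Prop where
  R : 1 < R₁
  D0 : 0 ≤ D
  dk : DifferentiableOn ℂ k (ball 0 R₁)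
  dU : DifferentiableOn ℂ U (ball 0 R₁)
  k0 : k 0 = 0
  U0 : U 0 = 0
  kB : ∀ w ∈ ball (0 : ℂ) R₁, ‖k w‖ ≤ B
  kL : ∀ w ∈ ball (0 : ℂ) R₁, ∀ w' ∈ ball (0 : ℂ) R₁, ‖k w - k w'‖ ≤ D * ‖w - w'‖
  UL : ∀ w ∈ ball (0 : ℂ) R₁, ∀ w' ∈ ball (0 : ℂ) R₁, ‖U w - U w'‖ ≤ D * ‖w - w'‖
  inj : InjOn (fun w => w * Complex.exp (-k w)) (ball 0 R₁ \ {0})
  eq : ∀ w ∈ ball (0 : ℂ) R₁, 1 - w * deriv k w = Complex.exp (U w)

variable {R₁ B D : ℝ} {k U : ℂ → ℂ}

theorem exp_lip {a b : ℂ} (ha : ‖a‖ ≤ 1) (hb : ‖b‖ ≤ 1) :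
    ‖Complex.exp a - Complex.exp b‖ ≤ 3 * ‖a - b‖ := by
  have h := (convex_closedBall (0 : ℂ) 1).norm_image_sub_le_of_norm_deriv_le (𝕜 := ℂ)
    (f := Complex.exp) (C := 3) (x := b) (y := a) (fun x _ => Complex.differentiableAt_exp)
    (fun x hx => ?_) (mem_closedBall_zero_iff.2 hb) (mem_closedBall_zero_iff.2 ha)
  · exact h
  · rw [Complex.deriv_exp, Complex.norm_exp]
    have h1 : x.re ≤ 1 := (re_le_norm x).trans (mem_closedBall_zero_iff.1 hx)
    have h2 := Real.exp_le_exp.2 h1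
    have h3 := Real.exp_one_lt_d9
    linarith

/-- parameters for which the iteration converges -/
structure Par (R₁ B D δ : ℝ) (n : ℕ) : Prop where
  n2 : 2 ≤ n
  δ0 : 0 ≤ δ
  δ1 : δ ≤ 1
  δB : 2 * B ≤ δ * n
  δR : Real.exp δ < R₁
  Dn : 2 + 6 * D ≤ n

theorem pow_mem {v : ℂ} (hv : v ∈ ball (0 : ℂ) 1) {n : ℕ} (hn : n ≠ 0) : v ^ n ∈ ball (0 : ℂ) 1 := by
  rw [mem_ball_zero_iff] at hv ⊢
  rw [norm_pow]
  exact pow_lt_one₀ (norm_nonneg _) hv hn

theorem mul_exp_mem {δ : ℝ} (hδ : Real.exp δ < R₁) {x θ : ℂ} (hx : x ∈ ball (0 : ℂ) 1)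
    (hθ : ‖θ‖ ≤ δ) : x * Complex.exp θ ∈ ball (0 : ℂ) R₁ := by
  rw [mem_ball_zero_iff] at hx ⊢
  rw [norm_mul, Complex.norm_exp]
  have h1 : Real.exp θ.re ≤ Real.exp δ := Real.exp_le_exp.2 ((re_le_norm θ).trans hθ)
  have h2 := Real.exp_pos θ.re
  nlinarith [norm_nonneg x]

/-- the iteration -/
noncomputable def it (k : ℂ → ℂ) (n : ℕ) : ℕ → ℂ → ℂ
  | 0, _ => 0
  | (N + 1), v => (it k n N (v ^ n) - k (v ^ n * Complex.exp (it k n N (v ^ n)))) / n

theorem it_le {δ : ℝ} {n : ℕ} (K : Blk R₁ B D k U) (P : Par R₁ B D δ n) (N : ℕ) :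
    ∀ v ∈ ball (0 : ℂ) 1, ‖it k n N v‖ ≤ δ := by
  have hn0 : n ≠ 0 := by have := P.n2; omega
  have hn2 : (2 : ℝ) ≤ n := by exact_mod_cast P.n2
  induction N with
  | zero => intro v _; simpa [it] using P.δ0
  | succ N ih =>
    intro v hv
    have h1 := ih _ (pow_mem hv hn0)
    have h2 := K.kB _ (mul_exp_mem P.δR (pow_mem hv hn0) h1)
    simp only [it]
    rw [norm_div, Complex.norm_natCast, div_le_iff₀ (by linarith)]
    have h3 := norm_sub_le (it k n N (v ^ n)) (k (v ^ n * Complex.exp (it k n N (v ^ n))))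
    nlinarith [P.δB, P.δ0]

theorem it_diff {δ : ℝ} {n : ℕ} (K : Blk R₁ B D k U) (P : Par R₁ B D δ n) (N : ℕ) :
    DifferentiableOn ℂ (it k n N) (ball 0 1) := by
  have hn0 : n ≠ 0 := by have := P.n2; omega
  induction N with
  | zero => exact differentiableOn_const 0
  | succ N ih =>
    have hp : DifferentiableOn ℂ (fun v : ℂ => v ^ n) (ball 0 1) := by fun_prop
    have h1 : DifferentiableOn ℂ (fun v : ℂ => it k n N (v ^ n)) (ball 0 1) :=
      ih.comp hp (fun v hv => pow_mem hv hn0)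
    have h2 : DifferentiableOn ℂ (fun v : ℂ => k (v ^ n * Complex.exp (it k n N (v ^ n))))
        (ball 0 1) := by
      apply K.dk.comp (hp.mul h1.cexp)
      intro v hv
      exact mul_exp_mem P.δR (pow_mem hv hn0) (it_le K P N _ (pow_mem hv hn0))
    exact (h1.sub h2).div_const _

/-- one step of the iteration is a contraction -/
theorem step_lip {δ : ℝ} {n : ℕ} (K : Blk R₁ B D k U) (P : Par R₁ B D δ n) {x a b : ℂ}
    (hx : x ∈ ball (0 : ℂ) 1) (ha : ‖a‖ ≤ δ) (hb : ‖b‖ ≤ δ) :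
    ‖(a - k (x * Complex.exp a)) / n - (b - k (x * Complex.exp b)) / n‖ ≤ 1 / 2 * ‖a - b‖ := by
  have hn2 : (2 : ℝ) ≤ n := by exact_mod_cast P.n2
  have h1 := K.kL _ (mul_exp_mem P.δR hx ha) _ (mul_exp_mem P.δR hx hb)
  have h2 := exp_lip (ha.trans P.δ1) (hb.trans P.δ1)
  have h3 : ‖x * Complex.exp a - x * Complex.exp b‖ ≤ 3 * ‖a - b‖ := by
    rw [← mul_sub, norm_mul]
    have h4 := (mem_ball_zero_iff.1 hx).le
    have h5 := norm_nonneg (Complex.exp a - Complex.exp b)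
    nlinarith [norm_nonneg x]
  have h4 : ‖k (x * Complex.exp a) - k (x * Complex.exp b)‖ ≤ D * (3 * ‖a - b‖) :=
    h1.trans (mul_le_mul_of_nonneg_left h3 K.D0)
  rw [← sub_div, norm_div, Complex.norm_natCast, div_le_iff₀ (by linarith)]
  have h5 : a - k (x * Complex.exp a) - (b - k (x * Complex.exp b)) =
      (a - b) - (k (x * Complex.exp a) - k (x * Complex.exp b)) := by ring
  rw [h5]
  have h6 := norm_sub_le (a - b) (k (x * Complex.exp a) - k (x * Complex.exp b))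
  have h7 := P.Dn
  nlinarith [norm_nonneg (a - b)]

theorem it_sub {δ : ℝ} {n : ℕ} (K : Blk R₁ B D k U) (P : Par R₁ B D δ n) (N : ℕ) :
    ∀ v ∈ ball (0 : ℂ) 1, ‖it k n (N + 1) v - it k n N v‖ ≤ δ * (1 / 2) ^ N := by
  have hn0 : n ≠ 0 := by have := P.n2; omega
  induction N with
  | zero =>
    intro v hv
    have := it_le K P 1 v hv
    simpa [it] using this
  | succ N ih =>
    intro v hv
    have h1 := step_lip K P (pow_mem hv hn0) (it_le K P (N + 1) _ (pow_mem hv hn0))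
      (it_le K P N _ (pow_mem hv hn0))
    have h2 := ih _ (pow_mem hv hn0)
    have h3 : ‖it k n (N + 1 + 1) v - it k n (N + 1) v‖ ≤
        1 / 2 * ‖it k n (N + 1) (v ^ n) - it k n N (v ^ n)‖ := h1
    calc _ ≤ _ := h3
      _ ≤ 1 / 2 * (δ * (1 / 2) ^ N) := by linarith
      _ = δ * (1 / 2) ^ (N + 1) := by ring

/-- solution of the functional equation -/
structure Fix (k : ℂ → ℂ) (n : ℕ) (δ : ℝ) (Θ : ℂ → ℂ) : Prop where
  d : DifferentiableOn ℂ Θ (ball 0 1)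
  le : ∀ v ∈ ball (0 : ℂ) 1, ‖Θ v‖ ≤ δ
  eq : ∀ v ∈ ball (0 : ℂ) 1, (n : ℂ) * Θ v = Θ (v ^ n) - k (v ^ n * Complex.exp (Θ (v ^ n)))
  zero : Θ 0 = 0

theorem exists_fix {δ : ℝ} {n : ℕ} (K : Blk R₁ B D k U) (P : Par R₁ B D δ n) :
    ∃ Θ, Fix k n δ Θ := by
  have hn0 : n ≠ 0 := by have := P.n2; omega
  have hnC : (n : ℂ) ≠ 0 := Nat.cast_ne_zero.2 hn0
  have hsum : Summable fun N : ℕ => δ * (1 / 2 : ℝ) ^ N :=
    (summable_geometric_of_lt_one (by norm_num) (by norm_num)).mul_left δ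
  set Θ : ℂ → ℂ := fun v => ∑' N, (it k n (N + 1) v - it k n N v) with hΘ
  have hd : DifferentiableOn ℂ Θ (ball 0 1) :=
    differentiableOn_tsum_of_summable_norm hsum
      (fun N => (it_diff K P (N + 1)).sub (it_diff K P N)) isOpen_ball (fun N v hv => it_sub K P N v hv)
  have hlim : ∀ v ∈ ball (0 : ℂ) 1, Tendsto (fun N => it k n N v) atTop (𝓝 (Θ v)) := by
    intro v hv
    have h1 : Summable fun N => it k n (N + 1) v - it k n N v :=
      Summable.of_norm_bounded hsum (fun N => it_sub K P N v hv)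
    have h2 := h1.hasSum.tendsto_sum_nat
    refine h2.congr fun N => ?_
    rw [Finset.sum_range_sub (fun N => it k n N v)]
    simp [it]
  have hle : ∀ v ∈ ball (0 : ℂ) 1, ‖Θ v‖ ≤ δ := fun v hv =>
    le_of_tendsto (hlim v hv).norm (Eventually.of_forall fun N => it_le K P N v hv)
  have heq : ∀ v ∈ ball (0 : ℂ) 1, (n : ℂ) * Θ v =
      Θ (v ^ n) - k (v ^ n * Complex.exp (Θ (v ^ n))) := by
    intro v hv
    have hvn := pow_mem hv hn0
    have h1 : Tendsto (fun N => it k n (N + 1) v) atTop (𝓝 (Θ v)) :=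
      (hlim v hv).comp (tendsto_add_atTop_nat 1)
    have h2 := hlim _ hvn
    have hkc : ContinuousAt k (v ^ n * Complex.exp (Θ (v ^ n))) :=
      K.dk.continuousOn.continuousAt (isOpen_ball.mem_nhds (mul_exp_mem P.δR hvn (hle _ hvn)))
    have h3 : Tendsto (fun N => k (v ^ n * Complex.exp (it k n N (v ^ n)))) atTop
        (𝓝 (k (v ^ n * Complex.exp (Θ (v ^ n))))) :=
      hkc.tendsto.comp (((Complex.continuous_exp.tendsto _).comp h2).const_mul _)
    have h4 := (h2.sub h3).div_const (n : ℂ)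
    have h5 := tendsto_nhds_unique h1 h4
    rw [h5]
    field_simp
  refine ⟨Θ, hd, hle, heq, ?_⟩
  have h00 : (0 : ℂ) ∈ ball (0 : ℂ) 1 := mem_ball_self one_pos
  have h1 := heq 0 h00
  rw [zero_pow hn0, zero_mul, K.k0, sub_zero] at h1
  have h2 : ((n : ℂ) - 1) * Θ 0 = 0 := by linear_combination h1
  rcases mul_eq_zero.1 h2 with h3 | h3
  · exfalso
    have h4 : (n : ℂ) = (1 : ℕ) := by
      rw [Nat.cast_one]
      exact sub_eq_zero.1 h3
    have h5 := Nat.cast_injective (R := ℂ) h4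
    have := P.n2
    omega
  · exact h3

end Pool.Agent.W5h49.MB
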