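import Pool.Agent.H76.MB.A3

set_option autoImplicit false

/-! # The functional equation of the self-similar map -/

namespace Pool.Agent.W5h49.MB

open Complex Metric Set Filter Topology MeasureTheory
open Pool.Agent.W677.Mar

/-- self-similar maps, close to the identity: `ψ z ^ n = G (ψ (z ^ n))` with `G` univalent on a
neighbourhood of the closed exterior disc -/
def Test (κ : ℝ) (N : ℕ) (ψ : ℂ → ℂ) : Prop :=
  (∀ z : ℂ, 1 < ‖z‖ → ‖ψ z / z - 1‖ ≤ κ) ∧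
  ∃ (n : ℕ) (ρ : ℝ) (G : ℂ → ℂ), N ≤ n ∧ 2 ≤ n ∧ 0 < ρ ∧ ρ < 1 ∧
    DifferentiableOn ℂ G {ζ : ℂ | ρ < ‖ζ‖} ∧ Set.InjOn G {ζ : ℂ | ρ < ‖ζ‖} ∧
    (∃ b : ℂ, Filter.Tendsto (fun ζ => G ζ - ζ) (Bornology.cobounded ℂ) (nhds b)) ∧
    ∀ z : ℂ, 1 < ‖z‖ → ρ < ‖ψ z‖ ∧ ψ z ^ n = G (ψ (z ^ n))

variable {R₁ B D δ : ℝ} {k U Θ : ℂ → ℂ} {n : ℕ}

theorem test_of (K : Blk R₁ B D k U) (P : Par R₁ B D δ n) (F : Fix k n δ Θ) {κ : ℝ} (hκ : 3 * δ ≤ κ)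
    {N : ℕ} (hN : N ≤ n) : Test κ N (fun z => z * Complex.exp (-Θ z⁻¹)) := by
  have hR0 : 0 < R₁ := by linarith [K.R]
  have hn0 : n ≠ 0 := by have := P.n2; omega
  have hinv : ∀ z : ℂ, 1 < ‖z‖ → z⁻¹ ∈ ball (0 : ℂ) 1 := by
    intro z hz
    rw [mem_ball_zero_iff, norm_inv]
    exact inv_lt_one_of_one_lt₀ hz
  have hz0 : ∀ z : ℂ, 1 < ‖z‖ → z ≠ 0 := by
    intro z hz h
    rw [h, norm_zero] at hz
    linarith
  have hρ : 0 < 1 / R₁ := by positivity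
  have hmem : ∀ ζ : ℂ, 1 / R₁ < ‖ζ‖ → ζ ≠ 0 ∧ ζ⁻¹ ∈ ball (0 : ℂ) R₁ := by
    intro ζ hζ
    have h0 : 0 < ‖ζ‖ := hρ.trans hζ
    refine ⟨norm_pos_iff.1 h0, ?_⟩
    rw [mem_ball_zero_iff, norm_inv]
    rw [one_div] at hζ
    exact inv_lt_of_inv_lt₀ hR0 hζ
  have hψT : ∀ z : ℂ, z * Complex.exp (-Θ z⁻¹) = (TT Θ z⁻¹)⁻¹ := by
    intro w
    unfold TT
    rw [mul_inv, inv_inv, Complex.exp_neg]
  refine ⟨?_, n, 1 / R₁, fun ζ => ζ * Complex.exp (k ζ⁻¹), hN, P.n2, hρ, ?_, ?_, ?_, ?_, ?_⟩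
  · intro z hz
    show ‖z * Complex.exp (-Θ z⁻¹) / z - 1‖ ≤ κ
    rw [mul_div_assoc, mul_comm, div_mul_cancel₀ _ (hz0 z hz)]
    have h2 := F.le _ (hinv z hz)
    have h3 := exp_lip (a := -Θ z⁻¹) (b := 0) (by rw [norm_neg]; exact h2.trans P.δ1) (by simp)
    rw [Complex.exp_zero, sub_zero, norm_neg] at h3
    linarith
  · rw [div_lt_one hR0]
    exact K.R
  · intro ζ hζ
    obtain ⟨h0, hb⟩ := hmem ζ hζ
    have d1 : DifferentiableAt ℂ k ζ⁻¹ := K.dk.differentiableAt (isOpen_ball.mem_nhds hb)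
    have d2 : DifferentiableAt ℂ (fun ζ : ℂ => k ζ⁻¹) ζ :=
      d1.comp ζ (hasDerivAt_inv h0).differentiableAt
    exact (differentiableAt_id.mul d2.cexp).differentiableWithinAt
  · intro ζ hζ ζ' hζ' he
    obtain ⟨h0, hb⟩ := hmem ζ hζ
    obtain ⟨h0', hb'⟩ := hmem ζ' hζ'
    have e1 : ∀ ζ : ℂ, ζ * Complex.exp (k ζ⁻¹) = (ζ⁻¹ * Complex.exp (-k ζ⁻¹))⁻¹ := by
      intro ζ
      rw [mul_inv, inv_inv, Complex.exp_neg, inv_inv]
    have he' : ζ * Complex.exp (k ζ⁻¹) = ζ' * Complex.exp (k ζ'⁻¹) := he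
    rw [e1, e1 ζ'] at he'
    have h1 := K.inj ⟨hb, inv_ne_zero h0⟩ ⟨hb', inv_ne_zero h0'⟩ (inv_injective he')
    exact inv_injective h1
  · refine ⟨deriv k 0, ?_⟩
    have h00 : (0 : ℂ) ∈ ball (0 : ℂ) R₁ := mem_ball_self hR0
    have d0 : HasDerivAt k (deriv k 0) 0 :=
      (K.dk.differentiableAt (isOpen_ball.mem_nhds h00)).hasDerivAt
    have d1 : HasDerivAt (fun v => Complex.exp (k v)) (deriv k 0) 0 := by
      have := d0.cexp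
      simpa [K.k0] using this
    have h1 := hasDerivAt_iff_tendsto_slope.1 d1
    have h2 : Tendsto (fun z : ℂ => z⁻¹) (Bornology.cobounded ℂ) (𝓝[≠] 0) :=
      tendsto_inv₀_cobounded'
    refine (h1.comp h2).congr' ?_
    have h3 : ∀ᶠ z : ℂ in Bornology.cobounded ℂ, 1 < ‖z‖ :=
      tendsto_norm_cobounded_atTop.eventually_gt_atTop 1
    filter_upwards [h3] with z hz
    have := hz0 z hz
    simp only [Function.comp_apply, slope_def_field, K.k0, Complex.exp_zero, sub_zero]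
    field_simp
  · intro z hz
    have hx := hinv z hz
    have hTT := TT_mem P F hx
    rw [mem_ball_zero_iff] at hTT
    have hT0 : TT Θ z⁻¹ ≠ 0 := mul_ne_zero (inv_ne_zero (hz0 z hz)) (Complex.exp_ne_zero _)
    constructor
    · show 1 / R₁ < ‖z * Complex.exp (-Θ z⁻¹)‖
      rw [hψT, norm_inv, one_div]
      exact inv_strictAnti₀ (norm_pos_iff.2 hT0) hTT
    · have h1 := F.eq _ hx
      show (z * Complex.exp (-Θ z⁻¹)) ^ n = z ^ n * Complex.exp (-Θ (z ^ n)⁻¹) *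
        Complex.exp (k (z ^ n * Complex.exp (-Θ (z ^ n)⁻¹))⁻¹)
      have e1 : (z ^ n * Complex.exp (-Θ (z ^ n)⁻¹))⁻¹ = z⁻¹ ^ n * Complex.exp (Θ (z⁻¹ ^ n)) := by
        rw [mul_inv, Complex.exp_neg, inv_inv, inv_pow]
      rw [e1, mul_pow, ← Complex.exp_nat_mul, mul_neg, h1, mul_assoc, ← Complex.exp_add, ← inv_pow]
      congr 2
      ring

end Pool.Agent.W5h49.MB
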