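import Pool.Agent.H76.MB.A3

set_option autoImplicit false

/-! # Exponential means of the self-similar map -/

namespace Pool.Agent.W5h49.MB

open Complex Metric Set Filter Topology MeasureTheory
open Pool.Agent.W677.Mar

theorem swap_cont {F : ℝ → ℝ → ℝ} (hF : Continuous (Function.uncurry F)) (a b c d : ℝ) :
    ∫ x in a..b, ∫ y in c..d, F x y = ∫ y in c..d, ∫ x in a..b, F x y := by
  apply intervalIntegral_intervalIntegral_swap
  have h1 : IsCompact (uIcc a b ×ˢ uIcc c d) := isCompact_uIcc.prod isCompact_uIcc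
  exact (hF.continuousOn.integrableOn_compact h1).mono_set
    (prod_mono uIoc_subset_uIcc uIoc_subset_uIcc)

theorem per_int {f : ℝ → ℝ} {T : ℝ} (hf : Function.Periodic f T) (τ : ℝ) :
    ∫ x in τ..(T + τ), f x = ∫ x in (0 : ℝ)..T, f x := by
  have h := hf.intervalIntegral_add_eq τ 0
  rw [zero_add] at h
  rw [add_comm T τ]
  exact h

/-- averaging against a function of small period -/
theorem avg_period {f g : ℝ → ℝ} (hf : Continuous f) (hg : Continuous g) {n : ℕ} (hn : 0 < n)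
    (hfp : Function.Periodic f (2 * Real.pi)) (hgp : Function.Periodic g (2 * Real.pi / n))
    (hg0 : ∀ x, 0 ≤ g x) {c : ℝ}
    (hfc : ∀ x, ∀ τ ∈ Icc (0 : ℝ) (2 * Real.pi / n), Real.exp (-c) * f x ≤ f (x + τ)) :
    Real.exp (-c) * (∫ x in (0:ℝ)..(2 * Real.pi), f x) * (∫ x in (0:ℝ)..(2 * Real.pi), g x) ≤
      2 * Real.pi * ∫ x in (0:ℝ)..(2 * Real.pi), f x * g x := by
  have hpi := Real.pi_pos
  have hnR : (0 : ℝ) < n := by exact_mod_cast hn
  obtain ⟨p, hp⟩ : ∃ p, p = 2 * Real.pi / n := ⟨_, rfl⟩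
  rw [← hp] at hgp hfc
  have hp0 : 0 < p := by rw [hp]; positivity
  have hnp : n * p = 2 * Real.pi := by rw [hp]; field_simp
  have hg2 : Function.Periodic g (2 * Real.pi) := by
    have := hgp.nat_mul n
    rwa [hnp] at this
  have h1 : ∀ τ ∈ Icc (0 : ℝ) p, Real.exp (-c) * ∫ x in (0:ℝ)..(2 * Real.pi), f x * g (x + τ) ≤
      ∫ x in (0:ℝ)..(2 * Real.pi), f x * g x := by
    intro τ hτ
    have e1 : ∫ x in (0:ℝ)..(2 * Real.pi), f x * g x =
        ∫ x in (0:ℝ)..(2 * Real.pi), f (x + τ) * g (x + τ) := by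
      rw [intervalIntegral.integral_comp_add_right (fun x => f x * g x) τ, zero_add]
      exact (per_int (hfp.mul hg2) τ).symm
    rw [e1, ← intervalIntegral.integral_const_mul]
    apply intervalIntegral.integral_mono_on (by positivity)
    · apply Continuous.intervalIntegrable
      fun_prop
    · apply Continuous.intervalIntegrable
      fun_prop
    · intro x _
      have := hfc x τ hτ
      rw [← mul_assoc]
      exact mul_le_mul_of_nonneg_right this (hg0 _)
  have hc2 : Continuous (Function.uncurry fun τ x : ℝ => f x * g (x + τ)) := by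
    apply (hf.comp continuous_snd).mul (hg.comp (continuous_snd.add continuous_fst))
  have h2 : ∫ τ in (0:ℝ)..p, Real.exp (-c) * ∫ x in (0:ℝ)..(2 * Real.pi), f x * g (x + τ) ≤
      ∫ _τ in (0:ℝ)..p, ∫ x in (0:ℝ)..(2 * Real.pi), f x * g x := by
    apply intervalIntegral.integral_mono_on hp0.le _ intervalIntegrable_const h1
    apply Continuous.intervalIntegrable
    apply continuous_const.mul
    exact intervalIntegral.continuous_parametric_intervalIntegral_of_continuous' hc2 0 (2 * Real.pi)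
  have h3 : ∫ τ in (0:ℝ)..p, ∫ x in (0:ℝ)..(2 * Real.pi), f x * g (x + τ) =
      (∫ x in (0:ℝ)..(2 * Real.pi), f x) * ∫ x in (0:ℝ)..p, g x := by
    rw [swap_cont hc2]
    have e : ∀ x, ∫ τ in (0:ℝ)..p, f x * g (x + τ) = f x * ∫ y in (0:ℝ)..p, g y := by
      intro x
      rw [intervalIntegral.integral_const_mul, intervalIntegral.integral_comp_add_left g x,
        add_zero, add_comm x p, per_int hgp x]
    simp_rw [e]
    rw [intervalIntegral.integral_mul_const]
  have h4 : ∫ x in (0:ℝ)..(2 * Real.pi), g x = n * ∫ x in (0:ℝ)..p, g x := by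
    have h5 := hgp.intervalIntegral_add_zsmul_eq (n : ℤ) 0
      (fun a b => hg.intervalIntegrable a b)
    rw [zero_add, zero_add] at h5
    simp only [zsmul_eq_mul, Int.cast_natCast] at h5
    rw [← hnp]
    exact h5
  rw [intervalIntegral.integral_const_mul, h3, intervalIntegral.integral_const, sub_zero,
    smul_eq_mul] at h2
  rw [h4, ← hnp]
  calc _ = n * (Real.exp (-c) * ((∫ x in (0:ℝ)..(n * p), f x) * ∫ x in (0:ℝ)..p, g x)) := by ring
    _ ≤ n * (p * ∫ x in (0:ℝ)..(n * p), f x * g x) := by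
        rw [hnp]
        exact mul_le_mul_of_nonneg_left h2 hnR.le
    _ = _ := by ring

/-- exponential mean -/
noncomputable def Mn (t : ℂ) (F : ℂ → ℂ) (r : ℝ) : ℝ :=
  ∫ θ in (0 : ℝ)..(2 * Real.pi), Real.exp ((starRingEnd ℂ) t * F (pt r θ)).re

theorem mean_re' {f : ℂ → ℂ} {R : ℝ} (hf : DifferentiableOn ℂ f (ball 0 R)) {r : ℝ}
    (hr0 : 0 ≤ r) (hr1 : r < R) :
    ∫ θ in (0 : ℝ)..(2 * Real.pi), (f (pt r θ)).re = 2 * Real.pi * (f 0).re := by
  have hpi := Real.pi_pos
  have hcl : DiffContOnCl ℂ f (ball 0 |r|) := by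
    rw [abs_of_nonneg hr0]
    exact hf.diffContOnCl_ball (closedBall_subset_ball hr1)
  have hc : Continuous fun θ : ℝ => f (pt r θ) := by
    apply hf.continuousOn.comp_continuous (continuous_pt r)
    intro θ
    rw [mem_ball_zero_iff, norm_pt r θ hr0]
    exact hr1
  have h1 := hcl.circleAverage
  rw [Real.circleAverage_def] at h1
  have h2 := reCLM.intervalIntegral_comp_comm (a := (0 : ℝ)) (b := 2 * Real.pi) (μ := volume)
    (f := fun θ => f (circleMap 0 r θ)) (hc.intervalIntegrable _ _)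
  have h3 := congrArg Complex.re h1
  rw [Complex.smul_re, smul_eq_mul] at h3
  have h4 : ∫ θ in (0 : ℝ)..(2 * Real.pi), (f (pt r θ)).re =
    (∫ θ in (0 : ℝ)..(2 * Real.pi), f (circleMap 0 r θ)).re := h2
  rw [h4, ← h3]
  field_simp

theorem Mn_cont {F : ℂ → ℂ} {R : ℝ} (hF : ContinuousOn F (ball 0 R)) (t : ℂ) {r : ℝ}
    (hr0 : 0 ≤ r) (hr1 : r < R) : Continuous fun θ : ℝ => ((starRingEnd ℂ) t * F (pt r θ)).re := by
  apply continuous_re.comp
  apply continuous_const.mul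
  apply hF.comp_continuous (continuous_pt r)
  intro θ
  rw [mem_ball_zero_iff, norm_pt r θ hr0]
  exact hr1

/-- Jensen -/
theorem Mn_ge {F : ℂ → ℂ} {R : ℝ} (hF : DifferentiableOn ℂ F (ball 0 R)) (h0 : F 0 = 0) (t : ℂ)
    {r : ℝ} (hr0 : 0 ≤ r) (hr1 : r < R) : 2 * Real.pi ≤ Mn t F r := by
  have hpi := Real.pi_pos
  have h1 := mean_re' (hF.const_mul ((starRingEnd ℂ) t)) hr0 hr1
  rw [h0, mul_zero, zero_re, mul_zero] at h1
  have hc := Mn_cont hF.continuousOn t hr0 hr1
  have h2 : ∫ θ in (0 : ℝ)..(2 * Real.pi), (1 + ((starRingEnd ℂ) t * F (pt r θ)).re) ≤ Mn t F r := by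
    apply intervalIntegral.integral_mono_on (by positivity)
    · exact (continuous_const.add hc).intervalIntegrable _ _
    · exact (Real.continuous_exp.comp hc).intervalIntegrable _ _
    · intro θ _
      have := Real.add_one_le_exp ((starRingEnd ℂ) t * F (pt r θ)).re
      linarith
  rw [intervalIntegral.integral_add intervalIntegrable_const (hc.intervalIntegrable _ _), h1,
    intervalIntegral.integral_const] at h2
  simpa using h2

theorem re_conj_le (t a : ℂ) : |((starRingEnd ℂ) t * a).re| ≤ ‖t‖ * ‖a‖ := by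
  refine (abs_re_le_norm _).trans ?_
  rw [norm_mul, RCLike.norm_conj]

/-- comparison of means of close functions -/
theorem Mn_close {F G : ℂ → ℂ} {t : ℂ} {r s c : ℝ}
    (hF : Continuous fun θ : ℝ => ((starRingEnd ℂ) t * F (pt r θ)).re)
    (hG : Continuous fun θ : ℝ => ((starRingEnd ℂ) t * G (pt s θ)).re)
    (h : ∀ θ : ℝ, ‖F (pt r θ) - G (pt s θ)‖ ≤ c) :
    Real.exp (-(‖t‖ * c)) * Mn t F r ≤ Mn t G s := by
  have hpi := Real.pi_pos
  unfold Mn
  rw [← intervalIntegral.integral_const_mul]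
  apply intervalIntegral.integral_mono_on (by positivity)
  · exact (continuous_const.mul (Real.continuous_exp.comp hF)).intervalIntegrable _ _
  · exact (Real.continuous_exp.comp hG).intervalIntegrable _ _
  · intro θ _
    rw [← Real.exp_add]
    apply Real.exp_le_exp.2
    have h1 := re_conj_le t (F (pt r θ) - G (pt s θ))
    rw [mul_sub, sub_re] at h1
    have h2 := (abs_le.1 (h1.trans (mul_le_mul_of_nonneg_left (h θ) (norm_nonneg t)))).2
    linarith

theorem pt_pow (r θ : ℝ) (n : ℕ) : pt r θ ^ n = pt (r ^ n) (n * θ) := by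
  simp only [pt, circleMap, zero_add]
  rw [mul_pow, ← Complex.exp_nat_mul]
  push_cast
  congr 2
  ring

variable {R₁ B D δ : ℝ} {k U Θ : ℂ → ℂ} {n : ℕ}

/-- the recursion for the means -/
theorem Mn_rec (K : Blk R₁ B D k U) (P : Par R₁ B D δ n) (F : Fix k n δ Θ) (t : ℂ) {r : ℝ}
    (hr0 : 0 ≤ r) (hr1 : r < 1) :
    Real.exp (-(‖t‖ * (D * (3 * δ + 7 / n)))) * Mn t U (r ^ n) * Mn t (nu U Θ n) (r ^ n) ≤
      2 * Real.pi * Mn t (nu U Θ n) r := by
  have hpi := Real.pi_pos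
  have hn0 : n ≠ 0 := by have := P.n2; omega
  have hn : 0 < n := Nat.pos_of_ne_zero hn0
  have hnR : (0 : ℝ) < n := by exact_mod_cast hn
  obtain ⟨s, hs⟩ : ∃ s, s = r ^ n := ⟨_, rfl⟩
  have hs0 : 0 ≤ s := by rw [hs]; positivity
  have hs1 : s < 1 := by rw [hs]; exact pow_lt_one₀ hr0 hr1 hn0
  have hmem : ∀ r : ℝ, 0 ≤ r → r < 1 → ∀ θ : ℝ, pt r θ ∈ ball (0 : ℂ) 1 := by
    intro r h0 h1 θ
    rw [mem_ball_zero_iff, norm_pt r θ h0]
    exact h1
  have hR : ball (0 : ℂ) 1 ⊆ ball 0 R₁ := ball_subset_ball K.R.le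
  rw [← hs]
  set f : ℝ → ℝ := fun φ => Real.exp ((starRingEnd ℂ) t * U (pt s φ)).re with hf
  set g : ℝ → ℝ := fun φ => Real.exp ((starRingEnd ℂ) t * nu U Θ n (pt s φ)).re with hg
  set G : ℝ → ℝ := fun φ => Real.exp ((starRingEnd ℂ) t * (U (TT Θ (pt s φ)) +
    nu U Θ n (pt s φ))).re with hG
  have hfc : Continuous f :=
    Real.continuous_exp.comp (Mn_cont K.dU.continuousOn t hs0 (hs1.trans K.R))
  have hgc : Continuous g :=
    Real.continuous_exp.comp (Mn_cont (nu_diff K P F).continuousOn t hs0 hs1)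
  have hVc : ContinuousOn (fun v => U (TT Θ v) + nu U Θ n v) (ball 0 1) := by
    apply ContinuousOn.add _ (nu_diff K P F).continuousOn
    exact K.dU.continuousOn.comp (TT_diff F).continuousOn (fun v hv => TT_mem P F hv)
  have hGc : Continuous G := Real.continuous_exp.comp (Mn_cont hVc t hs0 hs1)
  have hGp : Function.Periodic G (2 * Real.pi) := by
    intro φ
    simp only [hG, pt_periodic s φ]
  have hfp : Function.Periodic f (2 * Real.pi) := by
    intro φ
    simp only [hf, pt_periodic s φ]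
  have hgp : Function.Periodic g (2 * Real.pi / n) := by
    intro φ
    have e1 : pt s (φ + 2 * Real.pi / n) ^ n = pt s φ ^ n := by
      rw [pt_pow, pt_pow]
      have e2 : (n : ℝ) * (φ + 2 * Real.pi / n) = n * φ + 2 * Real.pi := by field_simp
      rw [e2, pt_periodic]
    simp only [hg]
    rw [nu_rec K P F (hmem s hs0 hs1 _), nu_rec K P F (hmem s hs0 hs1 φ), e1]
  -- the mean as an integral of `G`
  have h1 : Mn t (nu U Θ n) r = ∫ φ in (0 : ℝ)..(2 * Real.pi), G φ := by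
    have e1 : Mn t (nu U Θ n) r = ∫ θ in (0 : ℝ)..(2 * Real.pi), G (n * θ) := by
      unfold Mn
      congr 1
      ext θ
      simp only [hG]
      rw [nu_rec K P F (hmem r hr0 hr1 θ), pt_pow, ← hs]
    rw [e1, intervalIntegral.integral_comp_mul_left G hnR.ne', mul_zero, smul_eq_mul]
    have h5 := hGp.intervalIntegral_add_zsmul_eq (n : ℤ) 0
      (fun a b => hGc.intervalIntegrable a b)
    rw [zero_add, zero_add] at h5
    simp only [zsmul_eq_mul, Int.cast_natCast] at h5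
    rw [h5]
    field_simp
  -- slow variation of `f`
  have hslow : ∀ x, ∀ τ ∈ Icc (0 : ℝ) (2 * Real.pi / n),
      Real.exp (-(‖t‖ * (D * (7 / n)))) * f x ≤ f (x + τ) := by
    intro x τ hτ
    simp only [hf]
    rw [← Real.exp_add]
    apply Real.exp_le_exp.2
    have a1 := re_conj_le t (U (pt s x) - U (pt s (x + τ)))
    rw [mul_sub, sub_re] at a1
    have a2 := K.UL _ (hR (hmem s hs0 hs1 x)) _ (hR (hmem s hs0 hs1 (x + τ)))
    have a3 := norm_pt_sub_angle s x (x + τ) hs0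
    have a4 : |x - (x + τ)| = τ := by
      rw [sub_add_cancel_left, abs_neg, abs_of_nonneg hτ.1]
    rw [a4] at a3
    have a5 : s * τ ≤ 7 / n := by
      have b1 : s * τ ≤ 1 * τ := mul_le_mul_of_nonneg_right hs1.le hτ.1
      have b2 : 2 * Real.pi / n ≤ 7 / n := by
        apply div_le_div_of_nonneg_right _ hnR.le
        have := Real.pi_lt_d2
        linarith
      linarith [hτ.2]
    have a6 : ‖U (pt s x) - U (pt s (x + τ))‖ ≤ D * (7 / n) :=
      a2.trans (mul_le_mul_of_nonneg_left (a3.trans a5) K.D0)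
    have a7 := (abs_le.1 (a1.trans (mul_le_mul_of_nonneg_left a6 (norm_nonneg t)))).2
    linarith
  have h2 := avg_period hfc hgc hn hfp hgp (fun x => (Real.exp_pos _).le) hslow
  -- comparison of `G` with `f g`
  have h3 : Real.exp (-(‖t‖ * (D * (3 * δ)))) * ∫ x in (0:ℝ)..(2 * Real.pi), f x * g x ≤
      ∫ φ in (0 : ℝ)..(2 * Real.pi), G φ := by
    rw [← intervalIntegral.integral_const_mul]
    apply intervalIntegral.integral_mono_on (by positivity)
    · exact (continuous_const.mul (hfc.mul hgc)).intervalIntegrable _ _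
    · exact hGc.intervalIntegrable _ _
    · intro φ _
      simp only [hf, hg, hG]
      rw [← Real.exp_add, ← Real.exp_add]
      apply Real.exp_le_exp.2
      have hx := hmem s hs0 hs1 φ
      have a1 := re_conj_le t (U (pt s φ) - U (TT Θ (pt s φ)))
      rw [mul_sub, sub_re] at a1
      have a2 := K.UL _ (hR hx) _ (TT_mem P F hx)
      have a3 : ‖pt s φ - TT Θ (pt s φ)‖ ≤ 3 * δ := by
        have b1 : pt s φ - TT Θ (pt s φ) = pt s φ * (Complex.exp 0 - Complex.exp (Θ (pt s φ))) := by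
          unfold TT
          rw [Complex.exp_zero]
          ring
        rw [b1, norm_mul]
        have b2 := exp_lip (a := 0) (b := Θ (pt s φ)) (by simp) ((F.le _ hx).trans P.δ1)
        rw [zero_sub, norm_neg] at b2
        have b3 := F.le _ hx
        have b4 := (mem_ball_zero_iff.1 hx).le
        calc ‖pt s φ‖ * ‖Complex.exp 0 - Complex.exp (Θ (pt s φ))‖ ≤ 1 * (3 * δ) :=
              mul_le_mul b4 (b2.trans (by linarith)) (norm_nonneg _) zero_le_one
          _ = 3 * δ := one_mul _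
      have a4 := a2.trans (mul_le_mul_of_nonneg_left a3 K.D0)
      have a5 := (abs_le.1 (a1.trans (mul_le_mul_of_nonneg_left a4 (norm_nonneg t)))).2
      rw [mul_add, add_re]
      linarith
  rw [h1]
  have h4 : Real.exp (-(‖t‖ * (D * (3 * δ + 7 / n)))) =
      Real.exp (-(‖t‖ * (D * (3 * δ)))) * Real.exp (-(‖t‖ * (D * (7 / n)))) := by
    rw [← Real.exp_add]
    congr 1
    ring
  have h5 : Mn t U s = ∫ x in (0:ℝ)..(2 * Real.pi), f x := rfl
  have h6 : Mn t (nu U Θ n) s = ∫ x in (0:ℝ)..(2 * Real.pi), g x := rfl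
  rw [h4, h5, h6]
  have h7 := mul_le_mul_of_nonneg_left h2 (Real.exp_pos (-(‖t‖ * (D * (3 * δ))))).le
  have h8 := mul_le_mul_of_nonneg_left h3 (by positivity : 0 ≤ 2 * Real.pi)
  calc _ = Real.exp (-(‖t‖ * (D * (3 * δ)))) * (Real.exp (-(‖t‖ * (D * (7 / n)))) *
        (∫ x in (0:ℝ)..(2 * Real.pi), f x) * ∫ x in (0:ℝ)..(2 * Real.pi), g x) := by ring
    _ ≤ _ := h7
    _ = 2 * Real.pi * (Real.exp (-(‖t‖ * (D * (3 * δ)))) *
        ∫ x in (0:ℝ)..(2 * Real.pi), f x * g x) := by ring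
    _ ≤ _ := h8

/-- the mean of `U` on a nearby circle -/
theorem MnU (K : Blk R₁ B D k U) (t : ℂ) {s τ : ℝ} (hs0 : 0 ≤ s) (hs1 : s ≤ 1) (hτ : 1 - s ≤ τ) :
    Real.exp (-(‖t‖ * (D * τ))) * Mn t U 1 ≤ Mn t U s := by
  apply Mn_close (Mn_cont K.dU.continuousOn t zero_le_one K.R)
    (Mn_cont K.dU.continuousOn t hs0 (hs1.trans_lt K.R))
  intro θ
  have h1 := K.UL (pt 1 θ) (by
    rw [mem_ball_zero_iff, norm_pt 1 θ zero_le_one]
    exact K.R) (pt s θ) (by
    rw [mem_ball_zero_iff, norm_pt s θ hs0]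
    exact hs1.trans_lt K.R)
  refine h1.trans (mul_le_mul_of_nonneg_left ?_ K.D0)
  rw [norm_pt_sub, abs_of_nonneg (by linarith)]
  exact hτ

theorem Mn_step (K : Blk R₁ B D k U) (P : Par R₁ B D δ n) (F : Fix k n δ Θ) (t : ℂ) {r : ℝ}
    (hr0 : 0 ≤ r) (hr1 : r < 1) (hr : 1 - 1 / (n : ℝ) ≤ r ^ n) :
    Real.exp (-(‖t‖ * (D * (3 * δ + 8 / n)))) * Mn t U 1 / (2 * Real.pi) *
      Mn t (nu U Θ n) (r ^ n) ≤ Mn t (nu U Θ n) r := by
  have hpi := Real.pi_pos
  have hn0 : n ≠ 0 := by have := P.n2; omega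
  have hnR : (0 : ℝ) < n := by exact_mod_cast Nat.pos_of_ne_zero hn0
  have hs0 : 0 ≤ r ^ n := by positivity
  have hs1 : r ^ n < 1 := pow_lt_one₀ hr0 hr1 hn0
  have h1 := Mn_rec K P F t hr0 hr1
  have h2 := MnU K t hs0 hs1.le (τ := 1 / n) (by linarith)
  have h3 : 0 ≤ Mn t (nu U Θ n) (r ^ n) := by
    have := Mn_ge (nu_diff K P F) (nu_zero K P) t hs0 hs1
    linarith
  have h4 : Real.exp (-(‖t‖ * (D * (3 * δ + 8 / n)))) =
      Real.exp (-(‖t‖ * (D * (3 * δ + 7 / n)))) * Real.exp (-(‖t‖ * (D * (1 / n)))) := by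
    rw [← Real.exp_add]
    congr 1
    ring
  have h5 := mul_le_mul_of_nonneg_right (mul_le_mul_of_nonneg_left h2
    (Real.exp_pos (-(‖t‖ * (D * (3 * δ + 7 / n))))).le) h3
  rw [h4]
  have h6 : Real.exp (-(‖t‖ * (D * (3 * δ + 7 / n)))) * Real.exp (-(‖t‖ * (D * (1 / n)))) *
      Mn t U 1 / (2 * Real.pi) * Mn t (nu U Θ n) (r ^ n) =
      (Real.exp (-(‖t‖ * (D * (3 * δ + 7 / n)))) * (Real.exp (-(‖t‖ * (D * (1 / n)))) *
      Mn t U 1) * Mn t (nu U Θ n) (r ^ n)) / (2 * Real.pi) := by ring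
  rw [h6, div_le_iff₀ (by positivity)]
  linarith

/-- growth of the means -/
theorem Mn_iter (K : Blk R₁ B D k U) (P : Par R₁ B D δ n) (F : Fix k n δ Θ) (t : ℂ) (J : ℕ) :
    ∀ r : ℝ, 0 ≤ r → r < 1 → 1 - 1 / (n : ℝ) ≤ r ^ n ^ J →
    2 * Real.pi * (Real.exp (-(‖t‖ * (D * (3 * δ + 8 / n)))) * Mn t U 1 / (2 * Real.pi)) ^ J ≤
      Mn t (nu U Θ n) r := by
  have hpi := Real.pi_pos
  have hn0 : n ≠ 0 := by have := P.n2; omega
  induction J with
  | zero =>
    intro r hr0 hr1 _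
    rw [pow_zero, mul_one]
    exact Mn_ge (nu_diff K P F) (nu_zero K P) t hr0 hr1
  | succ J ih =>
    intro r hr0 hr1 hr
    have hs0 : 0 ≤ r ^ n := by positivity
    have hs1 : r ^ n < 1 := pow_lt_one₀ hr0 hr1 hn0
    have e1 : r ^ n ^ (J + 1) = (r ^ n) ^ n ^ J := by rw [← pow_mul, pow_succ']
    have h1 := ih (r ^ n) hs0 hs1 (by rwa [← e1])
    have h2 : 1 - 1 / (n : ℝ) ≤ r ^ n := by
      refine hr.trans ?_
      rw [e1]
      exact pow_le_of_le_one hs0 hs1.le (pow_ne_zero _ hn0)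
    have h3 := Mn_step K P F t hr0 hr1 h2
    have hU : 0 ≤ Mn t U 1 := by
      have := Mn_ge K.dU K.U0 t zero_le_one K.R
      linarith
    have h4 : 0 ≤ Real.exp (-(‖t‖ * (D * (3 * δ + 8 / n)))) * Mn t U 1 / (2 * Real.pi) := by
      positivity
    calc _ = (Real.exp (-(‖t‖ * (D * (3 * δ + 8 / n)))) * Mn t U 1 / (2 * Real.pi)) *
          (2 * Real.pi * (Real.exp (-(‖t‖ * (D * (3 * δ + 8 / n)))) * Mn t U 1 /
            (2 * Real.pi)) ^ J) := by ring
      _ ≤ _ := mul_le_mul_of_nonneg_left h1 h4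
      _ ≤ _ := h3

end Pool.Agent.W5h49.MB
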