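import Pool.Agent.H76.MB.A5

set_option autoImplicit false

/-! # The block of a map of the class `Σ` -/

namespace Pool.Agent.W5h49.MB

open Complex Metric Set Filter Topology MeasureTheory
open Pool.Agent.W677.Mar

variable {Y H : ℂ → ℂ} {f : ℂ × ℂ → ℂ}

theorem slit {z : ℂ} (hz : ‖z‖ < 1) : 1 - z ∈ slitPlane := by
  rw [sub_eq_add_neg]
  exact mem_slitPlane_of_norm_lt_one (by rwa [norm_neg])

theorem log_one_sub_le {z : ℂ} (hz : ‖z‖ < 1) : ‖Complex.log (1 - z)‖ ≤ -Real.log (1 - ‖z‖) := by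
  have h1 := Complex.hasSum_taylorSeries_neg_log hz
  have h2 := hasSum_log (norm_nonneg z) hz
  have h3 := norm_tsum_le_tsum_norm (f := fun n : ℕ => z ^ n / (n : ℂ)) (by
    refine h2.summable.congr fun n => ?_
    rw [norm_div, norm_pow, Complex.norm_natCast])
  rw [h1.tsum_eq, norm_neg] at h3
  refine h3.trans (le_of_eq ?_)
  rw [← h2.tsum_eq]
  refine tsum_congr fun n => ?_
  rw [norm_div, norm_pow, Complex.norm_natCast]

/-- `log` of the quotient -/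
noncomputable def kap (f : ℂ × ℂ → ℂ) (ζ x : ℂ) : ℂ := Complex.log (1 - x / ζ) + f (ζ, x)

theorem div_lt' {ζ x : ℂ} (hx : ‖x‖ < ‖ζ‖) : ‖x / ζ‖ < 1 := by
  rw [norm_div, div_lt_one (lt_of_le_of_lt (norm_nonneg _) hx)]
  exact hx

theorem kap_exp (T : TL Y H f) {ζ x : ℂ} (hζ : ζ ∈ ball (0 : ℂ) 1) (hx : ‖x‖ < ‖ζ‖) :
    Complex.exp (kap f ζ x) = Y x - x * (Y ζ / ζ) := by
  have hζ0 : ζ ≠ 0 := by
    rw [← norm_pos_iff]
    exact lt_of_le_of_lt (norm_nonneg _) hx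
  have hxb : x ∈ ball (0 : ℂ) 1 := mem_ball_zero_iff.2 (hx.trans (mem_ball_zero_iff.1 hζ))
  have h1 : 1 - x / ζ ≠ 0 := slitPlane_ne_zero (slit (div_lt' hx))
  unfold kap
  rw [Complex.exp_add, Complex.exp_log h1, T.exp ζ hζ x hxb]
  have h2 := NN_mul Y ζ x
  have h3 : (1 - x / ζ) = -(x - ζ) / ζ := by
    field_simp
    ring
  rw [h3, div_mul_eq_mul_div, neg_mul, mul_comm (x - ζ), h2]
  field_simp
  ring

theorem kap_zero (T : TL Y H f) {ζ : ℂ} (hζ : ζ ∈ ball (0 : ℂ) 1) : kap f ζ 0 = 0 := by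
  unfold kap
  rw [zero_div, sub_zero, Complex.log_one, T.z0 ζ hζ, add_zero]

theorem kap_diff (T : TL Y H f) {ζ : ℂ} (hζ : ζ ∈ ball (0 : ℂ) 1) :
    DifferentiableOn ℂ (kap f ζ) (ball 0 ‖ζ‖) := by
  apply DifferentiableOn.add
  · apply DifferentiableOn.clog
    · fun_prop
    · intro x hx
      exact slit (div_lt' (mem_ball_zero_iff.1 hx))
  · exact (T.dz ζ hζ).mono (ball_subset_ball (mem_ball_zero_iff.1 hζ).le)

theorem kap_eq (S : Sg Y H) (T : TL Y H f) {ζ x : ℂ} (hζ : ζ ∈ ball (0 : ℂ) 1)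
    (hx : x ∈ ball (0 : ℂ) ‖ζ‖) :
    1 - x * deriv (kap f ζ) x = Complex.exp (H x - kap f ζ x) := by
  have hxb : x ∈ ball (0 : ℂ) 1 := ball_subset_ball (mem_ball_zero_iff.1 hζ).le hx
  have d1 : HasDerivAt (kap f ζ) (deriv (kap f ζ) x) x :=
    ((kap_diff T hζ).differentiableAt (isOpen_ball.mem_nhds hx)).hasDerivAt
  have d2 : HasDerivAt (fun y => Complex.exp (kap f ζ y))
      (Complex.exp (kap f ζ x) * deriv (kap f ζ) x) x := d1.cexp
  have d3 : HasDerivAt Y (deriv Y x) x :=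
    (S.G.diff.differentiableAt (isOpen_ball.mem_nhds hxb)).hasDerivAt
  have d4 : HasDerivAt (fun y => Y y - y * (Y ζ / ζ)) (deriv Y x - 1 * (Y ζ / ζ)) x :=
    d3.sub ((hasDerivAt_id x).mul_const _)
  have e1 : (fun y => Complex.exp (kap f ζ y)) =ᶠ[𝓝 x] fun y => Y y - y * (Y ζ / ζ) := by
    filter_upwards [isOpen_ball.mem_nhds hx] with y hy
    exact kap_exp T hζ (mem_ball_zero_iff.1 hy)
  have h1 := d2.unique (d4.congr_of_eventuallyEq e1)
  have h2 := kap_exp T hζ (mem_ball_zero_iff.1 hx)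
  have h3 := S.eq x hxb
  rw [Complex.exp_sub, eq_div_iff (Complex.exp_ne_zero _), h3, sub_mul, one_mul, mul_assoc,
    mul_comm (deriv (kap f ζ) x), h1, h2]
  ring

theorem kap_le (T : TL Y H f) {e : ℝ} (he : 0 < e) (he1 : e ≤ 1 / 2) {ζ x : ℂ}
    (hζ : ‖ζ‖ = 1 - e / 4) (hx : ‖x‖ < 1 - e / 2) : ‖kap f ζ x‖ ≤ 2 * Real.log (4 / e) := by
  have hζ0 : ζ ≠ 0 := by
    rw [← norm_pos_iff, hζ]
    linarith
  have hxζ : ‖x‖ < ‖ζ‖ := by rw [hζ]; linarith
  have h1 := log_one_sub_le (div_lt' hxζ)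
  have h2 : -Real.log (1 - ‖x / ζ‖) ≤ Real.log (4 / e) := by
    rw [← Real.log_inv]
    have h3 : 1 - ‖x / ζ‖ ≥ e / 4 := by
      rw [norm_div, hζ]
      have h4 : ‖x‖ / (1 - e / 4) ≤ (1 - e / 2) / (1 - e / 4) :=
        div_le_div_of_nonneg_right hx.le (by linarith)
      have h5 : (1 - e / 2) / (1 - e / 4) ≤ 1 - e / 4 := by
        rw [div_le_iff₀ (by linarith)]
        nlinarith
      linarith
    have h6 : 4 / e = (e / 4)⁻¹ := by field_simp
    rw [h6]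
    apply Real.log_le_log (by positivity [lt_of_lt_of_le (by linarith : 0 < e / 4) h3])
    exact inv_anti₀ (by linarith) h3
  have h3 := T.le (1 - e / 4) (by linarith) ζ x hζ0 hζ.le (by linarith)
  have h4 : lam ((1 - e / 4) ^ 2) ≤ Real.log (4 / e) := by
    rw [lam, ← Real.log_inv]
    have h6 : 4 / e = (e / 4)⁻¹ := by field_simp
    rw [h6]
    have h7 : e / 4 ≤ 1 - (1 - e / 4) ^ 2 := by nlinarith
    apply Real.log_le_log
    · apply inv_pos.2
      linarith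
    · exact inv_anti₀ (by linarith) h7
  unfold kap
  have h5 := norm_add_le (Complex.log (1 - x / ζ)) (f (ζ, x))
  linarith

theorem H_le (S : Sg Y H) {e : ℝ} (he : 0 < e) {x : ℂ} (hx : ‖x‖ < 1 - e / 2) :
    ‖H x‖ ≤ Real.log (4 / e) := by
  have hxb : x ∈ ball (0 : ℂ) 1 := mem_ball_zero_iff.2 (by linarith)
  refine (goluzin S hxb).trans ?_
  rw [← Real.log_inv]
  have h6 : 4 / e = (e / 4)⁻¹ := by field_simp
  rw [h6]
  have h7 : e / 4 ≤ 1 - ‖x‖ ^ 2 := by nlinarith [norm_nonneg x]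
  apply Real.log_le_log
  · apply inv_pos.2
    linarith
  · exact inv_anti₀ (by linarith) h7

theorem lip_of_bound {g : ℂ → ℂ} {r d M : ℝ} (hd : 0 < d) (hg : DifferentiableOn ℂ g (ball 0 (r + d)))
    (hM : ∀ x ∈ ball (0:ℂ) (r + d), ‖g x‖ ≤ M) {x x' : ℂ} (hx : x ∈ ball (0 : ℂ) r)
    (hx' : x' ∈ ball (0 : ℂ) r) : ‖g x - g x'‖ ≤ M / d * ‖x - x'‖ := by
  have hsub : ∀ y ∈ ball (0 : ℂ) r, closedBall y d ⊆ ball 0 (r + d) := by
    intro y hy z hz
    rw [mem_ball_zero_iff] at hy ⊢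
    rw [mem_closedBall, dist_eq_norm] at hz
    have := norm_add_le (z - y) y
    rw [sub_add_cancel] at this
    linarith
  refine (convex_ball (0 : ℂ) r).norm_image_sub_le_of_norm_deriv_le (𝕜 := ℂ) (f := g) ?_ ?_ hx' hx
  · intro y hy
    exact hg.differentiableAt (isOpen_ball.mem_nhds (hsub y hy (mem_closedBall_self hd.le)))
  · intro y hy
    apply norm_deriv_le_of_forall_mem_sphere_norm_le hd
    · exact (hg.mono (hsub y hy)).diffContOnCl_ball Subset.rfl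
    · intro z hz
      exact hM z (hsub y hy (sphere_subset_closedBall hz))

theorem mul_mem {ρ r : ℝ} (hρ : 0 < ρ) {w : ℂ} (hw : w ∈ ball (0 : ℂ) (r / ρ)) :
    (ρ : ℂ) * w ∈ ball (0 : ℂ) r := by
  rw [mem_ball_zero_iff] at hw ⊢
  rw [norm_mul, Complex.norm_real, Real.norm_of_nonneg hρ.le]
  rwa [lt_div_iff₀' hρ] at hw

theorem blk (S : Sg Y H) (T : TL Y H f) {e ρ : ℝ} (he : 0 < e) (he1 : e ≤ 1 / 2) (hρ : ρ = 1 - e)
    {ζ : ℂ} (hζ : ‖ζ‖ = 1 - e / 4) :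
    Blk ((1 - 3 * e / 4) / ρ) (2 * Real.log (4 / e)) (12 * Real.log (4 / e) / e)
      (fun w => kap f ζ (ρ * w)) (fun w => H (ρ * w) - kap f ζ (ρ * w)) := by
  have hρ0 : 0 < ρ := by rw [hρ]; linarith
  have hρ1 : ρ < 1 := by rw [hρ]; linarith
  have hl : 0 < Real.log (4 / e) := by
    apply Real.log_pos
    rw [lt_div_iff₀ he]
    linarith
  have hζb : ζ ∈ ball (0 : ℂ) 1 := by
    rw [mem_ball_zero_iff, hζ]
    linarith
  have hR : 1 < (1 - 3 * e / 4) / ρ := by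
    rw [lt_div_iff₀ hρ0, hρ]
    linarith
  have hmem : ∀ w ∈ ball (0 : ℂ) ((1 - 3 * e / 4) / ρ), (ρ : ℂ) * w ∈ ball (0 : ℂ) (1 - 3 * e / 4) :=
    fun w hw => mul_mem hρ0 hw
  have hs1 : ball (0 : ℂ) (1 - 3 * e / 4) ⊆ ball 0 ‖ζ‖ := by
    apply ball_subset_ball
    rw [hζ]
    linarith
  have hs2 : ball (0 : ℂ) (1 - 3 * e / 4) ⊆ ball 0 1 := by
    apply ball_subset_ball
    linarith
  have hs3 : (1 - 3 * e / 4) + e / 4 = 1 - e / 2 := by ring
  have hs4 : ball (0 : ℂ) (1 - 3 * e / 4 + e / 4) ⊆ ball 0 ‖ζ‖ := by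
    apply ball_subset_ball
    rw [hζ]
    linarith
  have hs5 : ball (0 : ℂ) (1 - 3 * e / 4 + e / 4) ⊆ ball 0 1 := by
    apply ball_subset_ball
    linarith
  have hkd : DifferentiableOn ℂ (fun w : ℂ => kap f ζ (ρ * w)) (ball 0 ((1 - 3 * e / 4) / ρ)) :=
    (kap_diff T hζb).comp (by fun_prop) (fun w hw => hs1 (hmem w hw))
  have hHd : DifferentiableOn ℂ (fun w : ℂ => H (ρ * w)) (ball 0 ((1 - 3 * e / 4) / ρ)) :=
    S.dH.comp (by fun_prop) (fun w hw => hs2 (hmem w hw))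
  have hkB : ∀ x ∈ ball (0 : ℂ) (1 - 3 * e / 4 + e / 4), ‖kap f ζ x‖ ≤ 2 * Real.log (4 / e) := by
    intro x hx
    apply kap_le T he he1 hζ
    rw [mem_ball_zero_iff] at hx
    linarith
  have hUB : ∀ x ∈ ball (0 : ℂ) (1 - 3 * e / 4 + e / 4), ‖H x - kap f ζ x‖ ≤
      3 * Real.log (4 / e) := by
    intro x hx
    have h1 := hkB x hx
    rw [mem_ball_zero_iff] at hx
    have h2 := H_le S he (x := x) (by linarith)
    have h3 := norm_sub_le (H x) (kap f ζ x)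
    linarith
  have hnorm : ∀ w w' : ℂ, ‖(ρ : ℂ) * w - ρ * w'‖ ≤ ‖w - w'‖ := by
    intro w w'
    rw [← mul_sub, norm_mul, Complex.norm_real, Real.norm_of_nonneg hρ0.le]
    nlinarith [norm_nonneg (w - w')]
  refine ⟨hR, by positivity, hkd, hHd.sub hkd, ?_, ?_, ?_, ?_, ?_, ?_, ?_⟩
  · show kap f ζ (ρ * 0) = 0
    rw [mul_zero, kap_zero T hζb]
  · show H (ρ * 0) - kap f ζ (ρ * 0) = 0
    rw [mul_zero, kap_zero T hζb, S.H0, sub_zero]
  · intro w hw
    apply hkB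
    rw [mem_ball_zero_iff]
    have := mem_ball_zero_iff.1 (hmem w hw)
    linarith
  · intro w hw w' hw'
    have h1 := lip_of_bound (g := kap f ζ) (r := 1 - 3 * e / 4) (d := e / 4) (by linarith)
      ((kap_diff T hζb).mono hs4) hkB (hmem w hw) (hmem w' hw')
    have h2 : 2 * Real.log (4 / e) / (e / 4) ≤ 12 * Real.log (4 / e) / e := by
      rw [div_le_div_iff₀ (by linarith) he]
      nlinarith [mul_pos hl he]
    calc _ ≤ _ := h1
      _ ≤ 12 * Real.log (4 / e) / e * ‖w - w'‖ :=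
        mul_le_mul h2 (hnorm w w') (norm_nonneg _) (by positivity)
  · intro w hw w' hw'
    have h1 := lip_of_bound (g := fun x => H x - kap f ζ x) (r := 1 - 3 * e / 4) (d := e / 4)
      (by linarith) ((S.dH.mono hs5).sub ((kap_diff T hζb).mono hs4)) hUB (hmem w hw) (hmem w' hw')
    have h2 : 3 * Real.log (4 / e) / (e / 4) ≤ 12 * Real.log (4 / e) / e := by
      apply le_of_eq
      field_simp
      norm_num
    calc _ ≤ _ := h1
      _ ≤ 12 * Real.log (4 / e) / e * ‖w - w'‖ :=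
        mul_le_mul h2 (hnorm w w') (norm_nonneg _) (by positivity)
  · intro w hw w' hw' hww
    have hw1 := hmem w hw.1
    have hw1' := hmem w' hw'.1
    have hw0 : w ≠ 0 := hw.2
    have hw0' : w' ≠ 0 := hw'.2
    have hρC : (ρ : ℂ) ≠ 0 := by
      rw [Ne, Complex.ofReal_eq_zero]
      exact hρ0.ne'
    have e1 := kap_exp T hζb (mem_ball_zero_iff.1 (hs1 hw1))
    have e2 := kap_exp T hζb (mem_ball_zero_iff.1 (hs1 hw1'))
    have n1 : Y (ρ * w) - ρ * w * (Y ζ / ζ) ≠ 0 := by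
      rw [← e1]
      exact Complex.exp_ne_zero _
    have n2 : Y (ρ * w') - ρ * w' * (Y ζ / ζ) ≠ 0 := by
      rw [← e2]
      exact Complex.exp_ne_zero _
    have h1 : w * Complex.exp (-kap f ζ (ρ * w)) = w' * Complex.exp (-kap f ζ (ρ * w')) := hww
    rw [Complex.exp_neg, Complex.exp_neg, e1, e2, ← div_eq_mul_inv, ← div_eq_mul_inv,
      div_eq_div_iff n1 n2] at h1
    have h2 : w * Y (ρ * w') = w' * Y (ρ * w) := by linear_combination h1
    have h3 : (ρ : ℂ) * w = ρ * w' := by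
      apply S.G.inj ⟨hs2 hw1, mul_ne_zero hρC hw0⟩ ⟨hs2 hw1', mul_ne_zero hρC hw0'⟩
      show Y (ρ * w) / (ρ * w) = Y (ρ * w') / (ρ * w')
      rw [div_eq_div_iff (mul_ne_zero hρC hw0) (mul_ne_zero hρC hw0')]
      linear_combination -(ρ : ℂ) * h2
    exact mul_left_cancel₀ hρC h3
  · intro w hw
    have h1 := kap_eq S T hζb (hs1 (hmem w hw))
    have h2 : deriv (fun w : ℂ => kap f ζ (ρ * w)) w = (ρ : ℂ) • deriv (kap f ζ) (ρ * w) :=
      deriv_comp_mul_left (ρ : ℂ) (kap f ζ) w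
    show 1 - w * deriv (fun w : ℂ => kap f ζ (ρ * w)) w = Complex.exp (H (ρ * w) - kap f ζ (ρ * w))
    rw [h2, ← h1, smul_eq_mul]
    ring

end Pool.Agent.W5h49.MB
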