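import Pool.Agent.H76.MB.A6

set_option autoImplicit false

/-! # Choice of the parameter of the block -/

namespace Pool.Agent.W5h49.MB

open Complex Metric Set Filter Topology MeasureTheory
open Pool.Agent.W677.Mar

variable {Y H : ℂ → ℂ} {f : ℂ × ℂ → ℂ}

theorem int_neg_per {F : ℝ → ℝ} (hF : Function.Periodic F (2 * Real.pi)) :
    ∫ θ in (0 : ℝ)..(2 * Real.pi), F (-θ) = ∫ θ in (0 : ℝ)..(2 * Real.pi), F θ := by
  rw [intervalIntegral.integral_comp_neg F]
  have h3 := hF.intervalIntegral_add_eq (-(2 * Real.pi)) 0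
  rw [neg_add_cancel, zero_add] at h3
  rw [neg_zero]
  exact h3

theorem pt_inv (r θ : ℝ) : (pt r θ)⁻¹ = pt r⁻¹ (-θ) := by
  simp only [pt, circleMap, zero_add]
  rw [mul_inv, ← Complex.exp_neg]
  push_cast
  congr 2
  ring

/-- mean value of `kap` in the parameter -/
theorem kap_mean (T : TL Y H f) {r : ℝ} (hr0 : 0 < r) (hr1 : r < 1) {x : ℂ} (hx0 : x ≠ 0)
    (hx : ‖x‖ < r) (t : ℂ) :
    ∫ φ in (0 : ℝ)..(2 * Real.pi), ((starRingEnd ℂ) t * kap f (pt r φ) x).re = 0 := by
  have hpi := Real.pi_pos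
  have hxn : 0 < ‖x‖ := norm_pos_iff.2 hx0
  have hxb : x ∈ ball (0 : ℂ) 1 := mem_ball_zero_iff.2 (hx.trans hr1)
  -- first part
  set A : ℂ → ℂ := fun u => (starRingEnd ℂ) t * Complex.log (1 - x * u) with hA
  have hAd : DifferentiableOn ℂ A (ball 0 (1 / ‖x‖)) := by
    apply DifferentiableOn.const_mul
    apply DifferentiableOn.clog
    · fun_prop
    · intro u hu
      apply slit
      rw [mem_ball_zero_iff, lt_div_iff₀ hxn] at hu
      rwa [norm_mul, mul_comm]
  have hri : r⁻¹ < 1 / ‖x‖ := by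
    rw [← one_div]
    exact one_div_lt_one_div_of_lt hxn hx
  have h1 := mean_re' hAd (inv_pos.2 hr0).le hri
  have hA0 : A 0 = 0 := by simp [hA]
  rw [hA0, zero_re, mul_zero] at h1
  have h2 : ∫ φ in (0 : ℝ)..(2 * Real.pi), (A (pt r⁻¹ (-φ))).re = 0 := by
    refine (int_neg_per (F := fun φ => (A (pt r⁻¹ φ)).re) ?_).trans h1
    intro φ
    simp only [pt_periodic r⁻¹ φ]
  have hAc : Continuous fun φ : ℝ => (A (pt r⁻¹ (-φ))).re := by
    apply continuous_re.comp
    apply hAd.continuousOn.comp_continuous ((continuous_pt _).comp continuous_neg)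
    intro φ
    rw [mem_ball_zero_iff, Function.comp_apply, norm_pt _ _ (inv_pos.2 hr0).le]
    exact hri
  -- second part
  have hBd : DifferentiableOn ℂ (fun ζ => (starRingEnd ℂ) t * f (ζ, x)) (ball 0 1) :=
    (T.dζ x hxb).const_mul _
  have h3 := mean_re' hBd hr0.le hr1
  rw [T.ζ0 x hxb, mul_zero, zero_re, mul_zero] at h3
  have hBc : Continuous fun φ : ℝ => ((starRingEnd ℂ) t * f (pt r φ, x)).re := by
    apply continuous_re.comp
    apply hBd.continuousOn.comp_continuous (continuous_pt _)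
    intro φ
    rw [mem_ball_zero_iff, norm_pt _ _ hr0.le]
    exact hr1
  have h4 : ∀ φ : ℝ, ((starRingEnd ℂ) t * kap f (pt r φ) x).re =
      (A (pt r⁻¹ (-φ))).re + ((starRingEnd ℂ) t * f (pt r φ, x)).re := by
    intro φ
    simp only [kap, hA]
    rw [← pt_inv, ← div_eq_mul_inv, mul_add, add_re]
  simp_rw [h4]
  rw [intervalIntegral.integral_add (hAc.intervalIntegrable _ _) (hBc.intervalIntegrable _ _), h2,
    h3, add_zero]

/-- continuity of `kap` on a torus -/
theorem kap_cont (T : TL Y H f) {ρ r : ℝ} (hρ0 : 0 ≤ ρ) (hρ : ρ < r) (hr1 : r < 1) :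
    Continuous fun p : ℝ × ℝ => kap f (pt r p.1) (pt ρ p.2) := by
  have hr0 : 0 ≤ r := hρ0.trans hρ.le
  have hne : ∀ φ : ℝ, pt r φ ≠ 0 := by
    intro φ
    rw [← norm_pos_iff, norm_pt r φ hr0]
    exact hρ0.trans_lt hρ
  apply Continuous.add
  · apply Continuous.clog
    · apply continuous_const.sub
      exact ((continuous_pt ρ).comp continuous_snd).div ((continuous_pt r).comp continuous_fst)
        (fun p => hne p.1)
    · intro p
      apply slit
      apply div_lt'
      rw [norm_pt ρ _ hρ0, norm_pt r _ hr0]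
      exact hρ
  · apply T.cont.comp_continuous
      (((continuous_pt r).comp continuous_fst).prodMk ((continuous_pt ρ).comp continuous_snd))
    intro p
    refine ⟨?_, ?_⟩
    · rw [mem_ball_zero_iff]
      show ‖pt r p.1‖ < 1
      rw [norm_pt r _ hr0]
      exact hr1
    · rw [mem_ball_zero_iff]
      show ‖pt ρ p.2‖ < 1
      rw [norm_pt ρ _ hρ0]
      exact hρ.trans hr1

theorem exists_param {F : ℝ → ℝ → ℝ} {g : ℝ → ℝ} (hF : Continuous (Function.uncurry F))
    (hg : Continuous g)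
    (h : ∀ θ, 2 * Real.pi * g θ ≤ ∫ φ in (0 : ℝ)..(2 * Real.pi), F φ θ) :
    ∃ φ, ∫ θ in (0 : ℝ)..(2 * Real.pi), g θ ≤ ∫ θ in (0 : ℝ)..(2 * Real.pi), F φ θ := by
  have hpi := Real.pi_pos
  by_contra hcon
  push Not at hcon
  set I : ℝ → ℝ := fun φ => ∫ θ in (0 : ℝ)..(2 * Real.pi), F φ θ with hI
  have hIc : Continuous I :=
    intervalIntegral.continuous_parametric_intervalIntegral_of_continuous' hF 0 (2 * Real.pi)
  obtain ⟨φ₀, -, hmax⟩ := (isCompact_Icc (a := (0 : ℝ)) (b := 2 * Real.pi)).exists_isMaxOn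
    ⟨0, ⟨le_rfl, by positivity⟩⟩ hIc.continuousOn
  have h1 : ∫ φ in (0 : ℝ)..(2 * Real.pi), I φ ≤ 2 * Real.pi * I φ₀ := by
    have h2 : ∫ φ in (0 : ℝ)..(2 * Real.pi), I φ ≤ ∫ _φ in (0 : ℝ)..(2 * Real.pi), I φ₀ := by
      apply intervalIntegral.integral_mono_on (by positivity) (hIc.intervalIntegrable _ _)
        intervalIntegrable_const
      intro φ hφ
      exact hmax hφ
    rw [intervalIntegral.integral_const, sub_zero, smul_eq_mul] at h2
    exact h2
  have hF2 : Continuous (Function.uncurry fun θ φ => F φ θ) :=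
    hF.comp (continuous_snd.prodMk continuous_fst)
  have h2 : 2 * Real.pi * ∫ θ in (0 : ℝ)..(2 * Real.pi), g θ ≤
      ∫ φ in (0 : ℝ)..(2 * Real.pi), I φ := by
    have e1 : ∫ φ in (0 : ℝ)..(2 * Real.pi), I φ =
        ∫ θ in (0 : ℝ)..(2 * Real.pi), ∫ φ in (0 : ℝ)..(2 * Real.pi), F φ θ :=
      swap_cont hF _ _ _ _
    rw [e1, ← intervalIntegral.integral_const_mul]
    apply intervalIntegral.integral_mono_on (by positivity)
    · exact (continuous_const.mul hg).intervalIntegrable _ _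
    · apply Continuous.intervalIntegrable
      exact intervalIntegral.continuous_parametric_intervalIntegral_of_continuous' hF2 0 _
    · intro θ _
      exact h θ
  have h3 := hcon φ₀
  have h4 : 2 * Real.pi * I φ₀ < 2 * Real.pi * ∫ θ in (0 : ℝ)..(2 * Real.pi), g θ :=
    mul_lt_mul_of_pos_left h3 (by positivity)
  linarith

theorem jensen0 {g : ℝ → ℝ} (hg : Continuous g) (h0 : ∫ φ in (0 : ℝ)..(2 * Real.pi), g φ = 0)
    (a : ℝ) : 2 * Real.pi * Real.exp a ≤ ∫ φ in (0 : ℝ)..(2 * Real.pi), Real.exp (a - g φ) := by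
  have hpi := Real.pi_pos
  have h5 : ∫ φ in (0 : ℝ)..(2 * Real.pi), (Real.exp a * (1 - g φ)) ≤
      ∫ φ in (0 : ℝ)..(2 * Real.pi), Real.exp (a - g φ) := by
    apply intervalIntegral.integral_mono_on (by positivity)
    · exact (continuous_const.mul (continuous_const.sub hg)).intervalIntegrable _ _
    · exact (Real.continuous_exp.comp (continuous_const.sub hg)).intervalIntegrable _ _
    · intro φ _
      have := Real.add_one_le_exp (-g φ)
      rw [sub_eq_add_neg a, Real.exp_add]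
      apply mul_le_mul_of_nonneg_left _ (Real.exp_pos _).le
      linarith
  rw [intervalIntegral.integral_const_mul,
    intervalIntegral.integral_sub intervalIntegrable_const (hg.intervalIntegrable _ _), h0,
    intervalIntegral.integral_const, sub_zero, sub_zero, smul_eq_mul, mul_one] at h5
  rw [mul_comm]
  exact h5

/-- some parameter does not decrease the mean -/
theorem exists_phi (S : Sg Y H) (T : TL Y H f) {ρ r : ℝ} (hρ0 : 0 < ρ) (hρ : ρ < r) (hr1 : r < 1)
    (t : ℂ) : ∃ φ : ℝ, Mn t H ρ ≤ Mn t (fun w => H (ρ * w) - kap f (pt r φ) (ρ * w)) 1 := by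
  have hpi := Real.pi_pos
  have hr0 : 0 < r := hρ0.trans hρ
  have hk := kap_cont T hρ0.le hρ hr1
  obtain ⟨u, hu⟩ : ∃ u : ℝ → ℝ, u = fun θ : ℝ => ((starRingEnd ℂ) t * H (pt ρ θ)).re := ⟨_, rfl⟩
  obtain ⟨v, hv⟩ : ∃ v : ℝ × ℝ → ℝ, v = fun p : ℝ × ℝ =>
    ((starRingEnd ℂ) t * kap f (pt r p.1) (pt ρ p.2)).re := ⟨_, rfl⟩
  have huc : Continuous u := by
    rw [hu]
    exact Mn_cont S.dH.continuousOn t hρ0.le (hρ.trans hr1)
  have hvc : Continuous v := by
    rw [hv]
    exact continuous_re.comp (continuous_const.mul hk)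
  have hFc : Continuous (Function.uncurry fun φ θ : ℝ => Real.exp (u θ - v (φ, θ))) := by
    have h1 : Continuous fun p : ℝ × ℝ => Real.exp (u p.2 - v p) :=
      Real.continuous_exp.comp ((huc.comp continuous_snd).sub hvc)
    exact h1
  have hgc : Continuous fun θ : ℝ => Real.exp (u θ) := Real.continuous_exp.comp huc
  have hJ : ∀ θ : ℝ, 2 * Real.pi * Real.exp (u θ) ≤
      ∫ φ in (0 : ℝ)..(2 * Real.pi), Real.exp (u θ - v (φ, θ)) := by
    intro θ
    have hx0 : pt ρ θ ≠ 0 := by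
      rw [← norm_pos_iff, norm_pt ρ θ hρ0.le]
      exact hρ0
    have hxr : ‖pt ρ θ‖ < r := by
      rw [norm_pt ρ θ hρ0.le]
      exact hρ
    have h3 := kap_mean T hr0 hr1 hx0 hxr t
    have hc : Continuous fun φ : ℝ => v (φ, θ) := by
      have h1 : Continuous fun φ : ℝ => (φ, θ) := by fun_prop
      exact hvc.comp h1
    refine jensen0 hc ?_ (u θ)
    rw [hv]
    exact h3
  obtain ⟨φ, hφ⟩ := exists_param hFc hgc hJ
  refine ⟨φ, ?_⟩
  have e1 : Mn t H ρ = ∫ θ in (0 : ℝ)..(2 * Real.pi), Real.exp (u θ) := by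
    rw [hu]
    rfl
  have e2 : Mn t (fun w => H (ρ * w) - kap f (pt r φ) (ρ * w)) 1 =
      ∫ θ in (0 : ℝ)..(2 * Real.pi), Real.exp (u θ - v (φ, θ)) := by
    rw [hu, hv]
    unfold Mn
    congr 1
    ext θ
    show Real.exp ((starRingEnd ℂ) t * (H (ρ * pt 1 θ) - kap f (pt r φ) (ρ * pt 1 θ))).re =
      Real.exp (((starRingEnd ℂ) t * H (pt ρ θ)).re -
        ((starRingEnd ℂ) t * kap f (pt r φ) (pt ρ θ)).re)
    rw [← pt_eq, mul_sub, sub_re]
  rw [e1, e2]
  exact hφ

end Pool.Agent.W5h49.MB
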